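import Mathlib
import Pool.Agent.helper35.DR.SpecK

/-!
# Project dr (MP_baa4d7_al), module KPW
-/

set_option autoImplicit false

namespace Pool.Agent.DR

open Pool.Agent.helper58.DC Pool.Agent.DI

theorem KPW (hKTW : KTW_stmt) : KPW_stmt := by
  intro Q _ _ N hN α hα
  classical
  have : Fintype N := Fintype.ofFinite N
  have : N.Normal := hN
  obtain ⟨h1, h2, h3⟩ := hα
  refine ⟨pow_mem (show α ∈ Coc Q from ⟨h1, h2, h3⟩) _, fun n => ∏ x : N, α n x, ?_, ?_⟩
  · intro n hn n' hn'
    have hr : ∏ x : N, α n x = ∏ x : N, α n (n' * x) := by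
      have := Equiv.prod_comp (Equiv.mulLeft (⟨n', hn'⟩ : N)) (fun x : N => α n x)
      rw [← this]
      rfl
    simp only [Pi.pow_apply]
    rw [hr, ← Finset.prod_mul_distrib]
    have : ∀ x : N, α n (n' * x) * α n' x = α n n' * α (n * n') x := fun x => (h1 n n' x).symm
    simp only [this]
    rw [Finset.prod_mul_distrib, Finset.prod_const, Finset.card_univ, Nat.card_eq_fintype_card]
  · intro q n hn
    have htw : tw (α ^ Nat.card N) q n = (tw α q n) ^ Nat.card N := by
      simp only [tw, Pi.pow_apply, mul_pow, inv_pow]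
    rw [htw]
    have hx : ∀ x : N, α n x = tw α q n * tw α q x * (tw α q (n * x))⁻¹ *
        α (q * n * q⁻¹) (q * x * q⁻¹) := fun x => hKTW Q α ⟨h1, h2, h3⟩ q n x
    have e1 : ∏ x : N, tw α q (n * x) = ∏ x : N, tw α q x := by
      have := Equiv.prod_comp (Equiv.mulLeft (⟨n, hn⟩ : N)) (fun x : N => tw α q x)
      rw [← this]
      rfl
    have e2 : ∏ x : N, α (q * n * q⁻¹) (q * x * q⁻¹) = ∏ x : N, α (q * n * q⁻¹) x := by
      have := Equiv.prod_comp (MulAut.conjNormal q : MulAut N).toEquiv
        (fun x : N => α (q * n * q⁻¹) x)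
      rw [← this]
      refine Finset.prod_congr rfl fun x _ => ?_
      congr 1
    calc ∏ x : N, α n x = ∏ x : N, (tw α q n * tw α q x * (tw α q (n * x))⁻¹ *
        α (q * n * q⁻¹) (q * x * q⁻¹)) := Finset.prod_congr rfl fun x _ => hx x
      _ = _ := by
        rw [Finset.prod_mul_distrib, Finset.prod_mul_distrib, Finset.prod_mul_distrib,
          Finset.prod_const, Finset.card_univ, Finset.prod_inv_distrib, e1, e2,
          Nat.card_eq_fintype_card, mul_inv_cancel_right]

end Pool.Agent.DR
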