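import Mathlib
import Pool.Agent.helper35.DR.SpecR

/-!
# Project dr (MP_baa4d7_al), module RLB
-/

set_option autoImplicit false

namespace Pool.Agent.DR

open Pool.Agent.helper58.DC Pool.Agent.DI

theorem RLB (hRTP : RTP_stmt) (hCHB : CHB_stmt) (hECD : ECD_stmt) (hRPA : RPA_stmt) :
    RLB_stmt := by
  intro G E A _ _ _ _ _ _ X p _ M hM hp hO χ hχ hst N hN hpN hI D hD
  have hnor : (N.comap X.proj).Normal := hN.comap X.proj
  refine hRPA G E A X p M hM hp hO χ hχ hst N hN D ?_
  -- the quotient `E ⧸ G₂`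
  have hq : Nonempty (E ⧸ N.comap X.proj ≃* A ⧸ N) := by
    let f : E →* A ⧸ N := (QuotientGroup.mk' N).comp X.proj
    have hf : Function.Surjective f :=
      (QuotientGroup.mk'_surjective N).comp X.proj_surjective
    have hk : f.ker = N.comap X.proj := by
      ext e
      rw [MonoidHom.mem_ker, Subgroup.mem_comap]
      exact QuotientGroup.eq_one_iff (X.proj e)
    exact ⟨(QuotientGroup.quotientMulEquivOfEq hk.symm).trans
      (QuotientGroup.quotientKerEquivOfSurjective f hf)⟩
  have hI' : InvFor p M (E ⧸ N.comap X.proj) := by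
    obtain ⟨φ⟩ := hq
    intro G' E' A' _ _ _ _ _ X' hA' hO' χ' hχ' hpd d U
    obtain ⟨ψ⟩ := hA'
    exact hI G' E' A' X' ⟨ψ.trans φ⟩ hO' χ' hχ' hpd d U
  have h1 := hRTP E p M hM hp X.inc.range (N.comap X.proj) hI' (omega (ext0 X.inc χ)) D hD
  have hle : X.inc.range ≤ N.comap X.proj := by
    rintro e ⟨g, rfl⟩
    rw [Subgroup.mem_comap, (X.exact (X.inc g)).2 ⟨g, rfl⟩]
    exact one_mem _
  have hker : X.proj.ker = X.inc.range := by
    ext e
    rw [MonoidHom.mem_ker, X.exact e]
    rfl
  have hnr : X.inc.range.Normal := by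
    rw [← hker]
    exact MonoidHom.normal_ker _
  have hcard : Nat.card (N.comap X.proj) = Nat.card N * Nat.card X.inc.range := by
    have h := hECD E A X.proj ⊤ N
    rw [top_inf_eq, top_inf_eq, hker, Subgroup.map_top_of_surjective X.proj X.proj_surjective,
      top_inf_eq] at h
    rw [h, mul_comm]
  rw [← hCHB E p X.inc.range (N.comap X.proj) hle hnr (Nat.card N) hcard hpN ⊤]
  exact h1

end Pool.Agent.DR
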